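import Pool.Agent.GT.StmtsD

/-!
# Squad GT, row D_INF: infinitely many parameters
-/

namespace Pool.Agent.GT.D.H55

theorem cop {a d a' d' : ℕ} (h : a.Coprime d) (h' : a'.Coprime d') (e : a * d' = a' * d) :
    a = a' := by
  apply Nat.dvd_antisymm
  · exact h.dvd_of_dvd_mul_right (e ▸ Dvd.intro _ rfl)
  · exact h'.dvd_of_dvd_mul_right (e ▸ Dvd.intro _ rfl)

theorem d_inf : InfStmt := by
  intro u₀ v₀ u₁ v₁ P hdet hP
  set S : Set (ℕ × ℕ) := {q | q.1.Prime ∧ 0 < q.2 ∧ q.1.Coprime q.2 ∧ P q.1 q.2 ∧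
    v₀ * q.1 + v₁ * q.2 ≠ 0} with hS
  have hv : v₀ ≠ 0 ∨ v₁ ≠ 0 := by
    by_contra h
    push Not at h
    apply hdet
    rw [h.1, h.2]
    ring
  have hSinf : S.Infinite := by
    intro hfin
    obtain ⟨B, hB⟩ := (hfin.image Prod.fst).bddAbove
    have hB' : ∀ q ∈ S, q.1 ≤ B := fun q hq => hB ⟨q, hq, rfl⟩
    have key : ∀ n₀ : ℕ, B < n₀ → ∃ a d : ℕ, n₀ ≤ a ∧ a.Prime ∧ 0 < d ∧ a.Coprime d ∧
        v₀ * a + v₁ * d = 0 := by
      intro n₀ hn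
      obtain ⟨a, d, h1, h2, h3, h4, h5⟩ := hP n₀
      refine ⟨a, d, h1, h2, h3, h4, ?_⟩
      by_contra h0
      have := hB' (a, d) ⟨h2, h3, h4, h5, h0⟩
      have h6 : a ≤ B := this
      omega
    obtain ⟨a, d, h1, h2, h3, h4, h5⟩ := key (B + 1) (Nat.lt_succ_self _)
    obtain ⟨a', d', h1', h2', h3', h4', h5'⟩ := key (B + 1 + a) (by omega)
    have e : a * d' = a' * d := by
      have e1 : v₀ * ((a : ℤ) * d' - a' * d) = 0 := by linear_combination (d' : ℤ) * h5 - d * h5'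
      have e2 : v₁ * ((a : ℤ) * d' - a' * d) = 0 := by
        linear_combination (a : ℤ) * h5' - a' * h5
      have e3 : (a : ℤ) * d' - a' * d = 0 := by
        rcases hv with h | h
        · exact (mul_eq_zero.1 e1).resolve_left h
        · exact (mul_eq_zero.1 e2).resolve_left h
      have e4 : (a : ℤ) * d' = a' * d := by linarith
      exact_mod_cast e4
    have := cop h4 h4' e
    omega
  refine Set.infinite_of_injOn_mapsTo (f := fun q : ℕ × ℕ =>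
    ((u₀ * q.1 + u₁ * q.2 : ℤ) : ℚ) / ((v₀ * q.1 + v₁ * q.2 : ℤ) : ℚ)) (s := S) ?_ ?_ hSinf
  · rintro ⟨a, d⟩ ⟨h1, h2, h3, h4, h5⟩ ⟨a', d'⟩ ⟨h1', h2', h3', h4', h5'⟩ he
    have hne : ((v₀ * a + v₁ * d : ℤ) : ℚ) ≠ 0 := by exact_mod_cast h5
    have hne' : ((v₀ * a' + v₁ * d' : ℤ) : ℚ) ≠ 0 := by exact_mod_cast h5'
    have he' : ((u₀ * a + u₁ * d : ℤ) : ℚ) / ((v₀ * a + v₁ * d : ℤ) : ℚ) =
        ((u₀ * a' + u₁ * d' : ℤ) : ℚ) / ((v₀ * a' + v₁ * d' : ℤ) : ℚ) := he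
    rw [div_eq_div_iff hne hne'] at he'
    have he2 : (u₀ * a + u₁ * d : ℤ) * (v₀ * a' + v₁ * d') =
        (u₀ * a' + u₁ * d') * (v₀ * a + v₁ * d) := by exact_mod_cast he'
    have e3 : (u₀ * v₁ - u₁ * v₀) * ((a : ℤ) * d' - a' * d) = 0 := by linear_combination he2
    have e4 : (a : ℤ) * d' = a' * d := by
      have := (mul_eq_zero.1 e3).resolve_left hdet
      linarith
    have e5 : a * d' = a' * d := by exact_mod_cast e4
    have ha : a = a' := cop h3 h3' e5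
    subst ha
    have hd : d' = d := Nat.eq_of_mul_eq_mul_left h1.pos e5
    rw [hd]
  · rintro ⟨a, d⟩ ⟨h1, h2, h3, h4, h5⟩
    exact ⟨a, d, h1, h2, h4, h5, rfl⟩

end Pool.Agent.GT.D.H55
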